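import Pool.Agent.Y7.LN.Stm

/-!
# Project LN: the transfer of the energy from the mode `n + 1` to the mode `n`
-/

open Set Filter Topology MeasureTheory Metric

set_option autoImplicit false

namespace Pool.Agent.Y868.LN

open Pool.Agent.Y6.N (src ph)
open Pool.Agent.Y303.EJ
open Pool.Agent.Y7.LN

lemma exp_big (y : ℝ) (hy : 10 ^ 30 ≤ y) : Real.exp (-y) ≤ 1 / (1000 * y) := by
  have hy0 : 0 < y := lt_of_lt_of_le (by norm_num) hy
  have h1 : y / 2 ≤ Real.exp (y / 2) := by
    have := Real.add_one_le_exp (y / 2)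
    linarith
  have h2 : Real.exp y = Real.exp (y / 2) * Real.exp (y / 2) := by
    rw [← Real.exp_add]
    ring_nf
  have h3 : 1000 * y ≤ Real.exp y := by
    rw [h2]
    have h4 : y / 2 * (y / 2) ≤ Real.exp (y / 2) * Real.exp (y / 2) :=
      mul_le_mul h1 h1 (by positivity) (Real.exp_pos _).le
    have h5 : 1000 * y ≤ y / 2 * (y / 2) := by nlinarith
    linarith
  rw [Real.exp_neg, ← one_div]
  exact one_div_le_one_div_of_le (by positivity) h3

section basics

variable {η : ℝ} {lm L C ℓ : ℕ → ℝ} {B : ℕ → ℕ → ℝ} {N : ℕ} {T : ℝ} {x R : ℕ → ℝ → ℝ}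

lemma Rle1 (h : Cb η lm L C ℓ B N T x R) (n : ℕ) {t : ℝ} (ht : t ∈ Ico 0 T) : R n t ≤ 1 := by
  induction n with
  | zero => exact h.R1 t ht
  | succ n ih =>
    have h1 := h.Rsq n t ht
    have h2 := h.R0 n t ht
    have h3 := h.R0 (n + 1) t ht
    by_contra hlt
    push Not at hlt
    nlinarith [sq_nonneg (x n t)]

lemma xle1 (h : Cb η lm L C ℓ B N T x R) (n : ℕ) {t : ℝ} (ht : t ∈ Ico 0 T) : |x n t| ≤ 1 := by
  have h1 := h.Rsq n t ht
  have h2 := h.R0 n t ht
  have h3 := Rle1 h n ht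
  apply abs_le_of_sq_le_sq _ zero_le_one
  nlinarith [sq_nonneg (R (n + 1) t)]

lemma Lpos (h : Cb η lm L C ℓ B N T x R) (n : ℕ) : 0 < L n :=
  lt_of_lt_of_le one_pos (h.nm.L1 n)

lemma lmpos (h : Cb η lm L C ℓ B N T x R) (n : ℕ) : 0 < lm n :=
  lt_of_lt_of_le (by norm_num) (h.nm.lm1 n)

lemma e0_pos : 0 < e0 lm := by
  unfold e0
  positivity

lemma dl4 (h : Cb η lm L C ℓ B N T x R) (n : ℕ) : dl η n ^ 4 ≤ 1 := by
  have h1 := h.nm.d0 n
  have h2 := h.nm.d1 n
  exact pow_le_one₀ h1.le (by linarith)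

/-- all the small terms -/
lemma A_le (h : Cb η lm L C ℓ B N T x R) (n : ℕ) {t : ℝ} (ht : t ∈ Ico 0 T) :
    |Sg L x n t| + |src L C x n t| + ℓ n + e0 lm + C n * L n + ph lm n ≤ 2 * (L n / lm n) := by
  have hlm := lmpos h n
  have hL := Lpos h n
  have hlm1 := h.nm.lm1 n
  -- the last two terms
  have hexp := exp_big (lm n) hlm1
  have hr : 0 < L n / lm n := div_pos hL hlm
  have e1 : C n * L n ≤ 1 / 1000 * (L n / lm n) := by
    have h1 : C n ≤ 1 / (1000 * lm n) := by
      refine (h.nm.C1 n).trans (le_trans ?_ hexp)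
      apply Real.exp_le_exp.2
      linarith
    calc C n * L n ≤ 1 / (1000 * lm n) * L n := mul_le_mul_of_nonneg_right h1 hL.le
      _ = 1 / 1000 * (L n / lm n) := by
          field_simp
  have e2 : ph lm n ≤ 1 / 1000 * (L n / lm n) := by
    have h1 : ph lm n ≤ 1 / (1000 * lm n) := hexp
    calc ph lm n ≤ 1 / (1000 * lm n) * 1 := by rw [mul_one]; exact h1
      _ ≤ 1 / (1000 * lm n) * L n := mul_le_mul_of_nonneg_left (h.nm.L1 n) (by positivity)
      _ = 1 / 1000 * (L n / lm n) := by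
          field_simp
  have he0 := e0_pos (lm := lm)
  have he1 := h.nm.e1
  have hL0 := h.nm.L1 0
  have hlm0 := h.nm.lm1 0
  cases n with
  | zero =>
    have s0 : Sg L x 0 t = 0 := by simp [Sg]
    have s1 : src L C x 0 t = 0 := by simp [src]
    have h4 := dl4 h 0
    have h5 := h.sq.ℓ_zero
    have e3 : ℓ 0 ≤ 1 / 10 ^ 6 * (L 0 / lm 0) := by
      rw [mul_div_assoc', le_div_iff₀ hlm]
      nlinarith
    have e4 : e0 lm ≤ 1 / 10 ^ 30 * (L 0 / lm 0) := by
      rw [mul_div_assoc', le_div_iff₀ hlm]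
      nlinarith
    rw [s0, s1, abs_zero]
    linarith
  | succ m =>
    have hr2 : L (m + 1) / lm (m + 1) = L m := by
      rw [← h.sq.lm_succ m]
      field_simp
    rw [hr2] at e1 e2 hr ⊢
    have s0 : |Sg L x (m + 1) t| ≤ 101 / 100 * L m := by
      unfold Sg
      refine (Finset.abs_sum_le_sum_abs _ _).trans (le_trans ?_ (h.nm.Lsum m))
      apply Finset.sum_le_sum
      intro i _
      rw [abs_mul, abs_of_pos (Lpos h i)]
      exact mul_le_of_le_one_right (Lpos h i).le (xle1 h i ht)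
    have s1 : |src L C x (m + 1) t| ≤ 1 / 1000 * L m := by
      have h6 : src L C x (m + 1) t = L m * C m * x m t ^ 2 := by simp [src]
      have h7 : x m t ^ 2 ≤ 1 := by
        rw [← sq_abs]
        exact pow_le_one₀ (abs_nonneg _) (xle1 h m ht)
      have h8 : C m ≤ 1 / 1000 := by
        refine (h.nm.C1 m).trans ?_
        refine le_trans (Real.exp_le_exp.2 (by linarith [lmpos h m] : -(3 / 2 * lm m) ≤ -lm m)) ?_
        refine (exp_big (lm m) (h.nm.lm1 m)).trans ?_
        apply one_div_le_one_div_of_le (by norm_num)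
        have := h.nm.lm1 m
        linarith
      have h9 := (h.nm.C0 m).le
      have h10 := (Lpos h m).le
      rw [h6, abs_of_nonneg (by positivity)]
      calc L m * C m * x m t ^ 2 ≤ L m * C m * 1 :=
            mul_le_mul_of_nonneg_left h7 (by positivity)
        _ = C m * L m := by ring
        _ ≤ 1 / 1000 * L m := mul_le_mul_of_nonneg_right h8 h10
    have h4 := dl4 h (m + 1)
    have h5 := h.sq.ℓ_succ m
    have hLm := h.nm.L1 m
    have e3 : ℓ (m + 1) ≤ 1 / 10 ^ 6 * L m := by nlinarith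
    have e4 : e0 lm ≤ 1 / 10 ^ 30 * L m := by nlinarith
    linarith

/-- bound of the derivative of the mode -/
lemma dx_le (h : Cb η lm L C ℓ B N T x R) (n : ℕ) (hn : n ≤ N) {t : ℝ} (ht : t ∈ Ioo 0 T) :
    ∃ v, HasDerivAt (x n) v t ∧
      v ≤ 2 * (L n / lm n) - 99 / 100 * (L n * R (n + 1) t ^ 2) := by
  obtain ⟨v, hv, hb⟩ := h.dx n hn t ht
  refine ⟨v, hv, ?_⟩
  have ht' : t ∈ Ico 0 T := ⟨ht.1.le, ht.2⟩
  have hA := A_le h n ht'
  have hx := xle1 h n ht'
  have hx0 := abs_nonneg (x n t)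
  have hR0 := h.R0 (n + 1) t ht'
  have hR1 := Rle1 h (n + 1) ht'
  have hL := Lpos h n
  have hC := (h.nm.C0 n).le
  have he0 := (e0_pos (lm := lm)).le
  have hℓ := h.sq.ℓ_nonneg n
  have b1 := (abs_le.1 hb).2
  have c1 : Sg L x n t * x n t ≤ |Sg L x n t| := by
    calc Sg L x n t * x n t ≤ |Sg L x n t * x n t| := le_abs_self _
      _ = |Sg L x n t| * |x n t| := abs_mul _ _
      _ ≤ |Sg L x n t| * 1 := mul_le_mul_of_nonneg_left hx (abs_nonneg _)
      _ = |Sg L x n t| := mul_one _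
  have c2 : src L C x n t ≤ |src L C x n t| := le_abs_self _
  have c3 : -(ℓ n * x n t) ≤ ℓ n := by
    have := (abs_le.1 hx).1
    nlinarith
  have c4 : e0 lm * |x n t| ≤ e0 lm := mul_le_of_le_one_right he0 hx
  have c5 : C n * L n * |x n t| * R (n + 1) t ≤ C n * L n := by
    have h1 : |x n t| * R (n + 1) t ≤ 1 := mul_le_one₀ hx hR0 hR1
    calc C n * L n * |x n t| * R (n + 1) t = C n * L n * (|x n t| * R (n + 1) t) := by ring
      _ ≤ C n * L n * 1 := mul_le_mul_of_nonneg_left h1 (by positivity)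
      _ = C n * L n := mul_one _
  have c6 : Real.exp (-(lm (n + 1) / 2)) * R (n + 1) t ^ 2 ≤
      1 / 100 * (L n * R (n + 1) t ^ 2) := by
    have h1 : Real.exp (-(lm (n + 1) / 2)) ≤ 1 / 100 := by
      have h2 : 100 ≤ Real.exp (lm (n + 1) / 2) := by
        have h3 := Real.add_one_le_exp (lm (n + 1) / 2)
        have h4 := h.nm.lm1 (n + 1)
        linarith
      rw [Real.exp_neg, ← one_div]
      exact one_div_le_one_div_of_le (by norm_num) h2
    have h5 : Real.exp (-(lm (n + 1) / 2)) ≤ 1 / 100 * L n := by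
      have := h.nm.L1 n
      linarith
    calc Real.exp (-(lm (n + 1) / 2)) * R (n + 1) t ^ 2 ≤ 1 / 100 * L n * R (n + 1) t ^ 2 :=
          mul_le_mul_of_nonneg_right h5 (by positivity)
      _ = 1 / 100 * (L n * R (n + 1) t ^ 2) := by ring
  linarith

lemma sN_nonneg (h : Cb η lm L C ℓ B N T x R) (n : ℕ) : 0 ≤ sN lm L N n :=
  Finset.sum_nonneg fun i _ => (h.wn.w0 i).le

lemma sN_succ (n : ℕ) (hn : n + 1 ≤ N) : sN lm L N n = wd lm L n + sN lm L N (n + 1) := by
  unfold sN
  rw [Finset.sum_eq_sum_Ico_succ_bot (by omega)]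

end basics

/-- BARB: the transfer from `n + 1` to `n` -/
theorem t_BARB : Pool.Agent.Y7.LN.S_BARB := by
  intro η lm L C ℓ B N T x R h n ρ hn hbT hρ hxa hen
  set a := sN lm L N (n + 1) with ha
  set b := sN lm L N n with hb
  set θ := dl η n / 1000 with hθ
  have hd0 := h.nm.d0 n
  have hd1 := h.nm.d1 n
  have hθ0 : 0 < θ := by positivity
  have hθ1 : θ ≤ 1 / 10 ^ 5 := by rw [hθ]; linarith
  have hL := Lpos h n
  have hlm := lmpos h n
  have ha0 : 0 ≤ a := sN_nonneg h (n + 1)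
  have hw0 := h.wn.w0 n
  have hba : b = wd lm L n + a := sN_succ n hn
  have hab : a < b := by linarith
  have haT : a < T := lt_trans hab hbT
  -- `ρ ≤ 1`
  have hρ1 : ρ ≤ 1 := by
    have h1 := hen a ⟨le_rfl, hab⟩
    have h2 := Rle1 h n ⟨ha0, haT⟩
    have h3 := h.R0 n a ⟨ha0, haT⟩
    nlinarith
  -- the derivative
  have key : ∀ t ∈ Ioo a b, -(ρ - θ) ≤ x n t → x n t ≤ 1 / 25 →
      ∃ v, HasDerivAt (x n) v t ∧ v ≤ -(L n * θ / 4) := by
    intro t ht h1 h2
    have htT : t ∈ Ioo 0 T := ⟨lt_of_le_of_lt ha0 ht.1, lt_trans ht.2 hbT⟩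
    obtain ⟨v, hv, hv1⟩ := dx_le h n (by omega) htT
    refine ⟨v, hv, ?_⟩
    have h3 := h.Rsq n t ⟨htT.1.le, htT.2⟩
    have h4 := hen t ⟨ht.1.le, ht.2⟩
    have h5 : x n t ^ 2 ≤ ρ ^ 2 - θ / 2 := by
      rcases le_or_gt (x n t) 0 with hx | hx
      · nlinarith
      · nlinarith
    have h6 : θ / 2 ≤ R (n + 1) t ^ 2 := by linarith
    have h7 : 2 * (L n / lm n) ≤ L n * (θ / 100) := by
      have h8 := h.nm.lmd n
      rw [← mul_div_assoc, div_le_iff₀ hlm]
      have h9 : 2 ≤ θ / 100 * lm n := by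
        have : θ / 100 * lm n = dl η n * lm n / 10 ^ 5 := by rw [hθ]; ring
        rw [this]
        rw [le_div_iff₀ (by norm_num)]
        linarith
      nlinarith
    have h10 : L n * (θ / 2) ≤ L n * R (n + 1) t ^ 2 := mul_le_mul_of_nonneg_left h6 hL.le
    nlinarith [mul_pos hL hθ0]
  have hcont : ContinuousOn (x n) (Icc a b) := by
    apply (h.cx n).mono
    intro t ht
    exact ⟨ha0.trans ht.1, lt_of_le_of_lt ht.2 hbT⟩
  -- a time `a'` after `a`
  have hca : ContinuousWithinAt (x n) (Icc a b) a := hcont a ⟨le_rfl, hab.le⟩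
  have hev : ∀ᶠ t in 𝓝[Icc a b] a, x n t < 1 / 25 :=
    hca.eventually (gt_mem_nhds (by linarith : x n a < 1 / 25))
  obtain ⟨a', ha'1, ha'2, ha'3⟩ : ∃ a', a < a' ∧ a' < a + wd lm L n / 2 ∧ x n a' ≤ 1 / 25 := by
    obtain ⟨ε, hε, hball⟩ := Metric.mem_nhdsWithin_iff.1 hev
    refine ⟨a + min (ε / 2) (wd lm L n / 4), ?_, ?_, ?_⟩
    · have : 0 < min (ε / 2) (wd lm L n / 4) := lt_min (by linarith) (by linarith)
      linarith
    · have := min_le_right (ε / 2) (wd lm L n / 4)
      linarith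
    · have h1 : 0 < min (ε / 2) (wd lm L n / 4) := lt_min (by linarith) (by linarith)
      have h2 := min_le_right (ε / 2) (wd lm L n / 4)
      have h3 := min_le_left (ε / 2) (wd lm L n / 4)
      have h4 : a + min (ε / 2) (wd lm L n / 4) ∈ Metric.ball a ε ∩ Icc a b := by
        refine ⟨?_, ?_, ?_⟩
        · rw [Metric.mem_ball, Real.dist_eq, add_sub_cancel_left, abs_of_pos h1]
          linarith
        · linarith
        · linarith
      exact le_of_lt (hball h4)
  -- speed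
  set K := L n * θ / 8 with hK
  have hK0 : 0 < K := by positivity
  have hbig : 2 ≤ K * (b - a') := by
    have h1 : wd lm L n / 2 ≤ b - a' := by linarith
    have h2 : K * (wd lm L n / 2) = √(lm n) * θ / 16 := by
      rw [hK]
      unfold wd
      field_simp
      ring
    have h3 : 0 < √(lm n) := Real.sqrt_pos.2 hlm
    have h4 := h.wn.sq4 n
    have h5 : 10 ^ 15 ≤ √(lm n) * dl η n ^ 2 := by
      rw [div_le_div_iff₀ h3 (by norm_num)] at h4
      linarith
    have h6 : √(lm n) * dl η n ^ 2 ≤ √(lm n) * dl η n := by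
      apply mul_le_mul_of_nonneg_left _ h3.le
      nlinarith
    have h7 : √(lm n) * θ / 16 = √(lm n) * dl η n / 16000 := by rw [hθ]; ring
    have h8 : K * (wd lm L n / 2) ≤ K * (b - a') := mul_le_mul_of_nonneg_left h1 hK0.le
    rw [h2, h7] at h8
    have h9 : 2 ≤ √(lm n) * dl η n / 16000 := by
      rw [le_div_iff₀ (by norm_num)]
      linarith
    linarith
  set ts := a' + (1 / 25 + (ρ - θ)) / K with hts
  have hts1 : a' < ts := by
    have : 0 < (1 / 25 + (ρ - θ)) / K := div_pos (by linarith) hK0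
    linarith
  have hts2 : ts ≤ b := by
    have : (1 / 25 + (ρ - θ)) / K ≤ b - a' := by
      rw [div_le_iff₀ hK0]
      linarith
    linarith
  -- first part
  have P1 : x n ts ≤ 1 / 25 - K * (ts - a') := by
    have hmain := image_le_of_deriv_right_lt_deriv_boundary' (f := x n) (f' := deriv (x n))
      (a := a') (b := ts) (B := fun t => 1 / 25 - K * (t - a')) (B' := fun _ => -K)
      (hcont.mono (Icc_subset_Icc ha'1.le hts2)) ?_ ?_ ?_ ?_ ?_
    · exact hmain ⟨hts1.le, le_rfl⟩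
    · intro t ht
      obtain ⟨v, hv, _⟩ := dx_le h n (by omega)
        (⟨by linarith [ht.1], by linarith [ht.2]⟩ : t ∈ Ioo 0 T)
      exact hv.differentiableAt.hasDerivAt.hasDerivWithinAt
    · simpa using ha'3
    · fun_prop
    · intro t _
      have h1 : HasDerivAt (fun t : ℝ => 1 / 25 - K * (t - a')) (-K) t := by
        have h2 := (((hasDerivAt_id t).sub_const a').const_mul K).const_sub (1 / 25)
        simpa using h2
      exact h1.hasDerivWithinAt
    · intro t ht heq
      have h1 : K * (t - a') ≤ 1 / 25 + (ρ - θ) := by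
        have h2 : t - a' ≤ (1 / 25 + (ρ - θ)) / K := by linarith [ht.2]
        rw [le_div_iff₀ hK0] at h2
        linarith
      have h3 : 0 ≤ K * (t - a') := mul_nonneg hK0.le (by linarith [ht.1])
      obtain ⟨v, hv, hv1⟩ := key t ⟨by linarith [ht.1], by linarith [ht.2]⟩
        (by rw [heq]; linarith) (by rw [heq]; linarith)
      rw [hv.deriv]
      have : -(L n * θ / 4) = -(2 * K) := by rw [hK]; ring
      linarith
  have P2 : x n ts ≤ -(ρ - θ) := by
    have h1 : K * (ts - a') = 1 / 25 + (ρ - θ) := by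
      rw [hts]
      field_simp
      ring
    linarith
  -- second part
  have P3 := image_le_of_deriv_right_lt_deriv_boundary' (f := x n) (f' := deriv (x n))
    (a := ts) (b := b) (B := fun _ => -(ρ - θ)) (B' := fun _ => 0)
    (hcont.mono (Icc_subset_Icc (by linarith) le_rfl)) ?_ ?_ ?_ ?_ ?_
  · exact P3 ⟨hts2, le_rfl⟩
  · intro t ht
    obtain ⟨v, hv, _⟩ := dx_le h n (by omega)
      (⟨by linarith [ht.1], by linarith [ht.2]⟩ : t ∈ Ioo 0 T)
    exact hv.differentiableAt.hasDerivAt.hasDerivWithinAt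
  · exact P2
  · exact continuousOn_const
  · intro t _
    exact (hasDerivAt_const t _).hasDerivWithinAt
  · intro t ht heq
    obtain ⟨v, hv, hv1⟩ := key t ⟨by linarith [ht.1], ht.2⟩
      (by rw [heq]) (by rw [heq]; linarith)
    rw [hv.deriv]
    have : 0 < L n * θ / 4 := by positivity
    linarith

end Pool.Agent.Y868.LN
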